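import Pool.Agent.Helper6.BKU.Main

set_option autoImplicit false

/-!
MP_e00c87_al, Q1 (negative). There are a saturated formation `F` (the finite groups with nilpotent
commutator subgroup) and a soluble minimal non-`F`-group `G` of order `11664 = 3 ^ 6 * 16` whose
`F`-residual is a Sylow 3-subgroup of `G` and is not isomorphic to a quotient of a Sylow
3-subgroup of `PSU(3, 3 ^ (2 n))`, for any `n ≥ 1`.
-/

namespace Pool.Agent.Results.MP_e00c87_al.UnitarySylow

open Pool.Agent.Helper6.BKU

theorem result :
    ∃ (F : ∀ (H : Type) [Group H] [Finite H], Prop) (G : Type) (_ : Group G) (_ : Finite G)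
      (R : Subgroup G),
      IsSaturatedFormation F ∧
      (∀ (H : Type) [Group H] [Finite H], F H ↔ Group.IsNilpotent (commutator H)) ∧
      Nat.card G = 11664 ∧ Group.IsSolvable G ∧ IsMinimalNon F G ∧ IsResidual F R ∧
      (∃ P : Sylow 3 G, (P : Subgroup G) = R) ∧
      ∀ n : ℕ, 0 < n → ∀ S : Sylow 3 (PSU 3 n), ¬ IsQuotientOf R S :=
  main

end Pool.Agent.Results.MP_e00c87_al.UnitarySylow
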